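import Pool.Agent.Helper69.Enayat.AR
import Pool.Agent.Helper69.Enayat.Spec

/-!
# Enayat models: definable sets of the definable ultrapower, and classes (module KEY)
-/

set_option autoImplicit false

namespace Pool.Agent.Helper69.Enayat

open FirstOrder FirstOrder.Language Pool.Agent.Helper30.SatB Filter

section Model

variable {U : Ultrafilter (List Bool)} {M : Type} [arithLang.Structure M] {mk : ArF → M}

theorem IsUP.def_iff (h : IsUP U M mk) (D : Set M) :
    Def M D ↔ ∃ R : List Bool → ℕ → Prop, ArithP (fun p : List Bool × ℕ => R p.1 p.2) ∧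
      ∀ f : ArF, mk f ∈ D ↔ ∀ᶠ x in (U : Filter (List Bool)), R x (f.1 x) := by
  unfold Def Set.Definable₁
  rw [Set.definable_iff_exists_formula_sum]
  constructor
  · rintro ⟨φ, hφ⟩
    choose g hg using fun a : (Set.univ : Set M) => h.surj (a : M)
    refine ⟨fun x n => φ.Realize (Sum.elim (fun a => (g a).1 x) (fun _ => n)), ?_, ?_⟩
    · have := ArithP.realize (α := List Bool × ℕ) φ
        (fun i p => Sum.elim (fun a => (g a).1 p.1) (fun _ => p.2) i)
        (fun i _ => i.elim0) ?_ (fun i => i.elim0)
      · refine this.congr fun p => ?_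
        unfold Formula.Realize
        apply iff_of_eq
        congr 1
      · rintro (a | _)
        · exact (g a).2.comp (ArithF.fst ArithF.id)
        · exact ArithF.snd ArithF.id
    · intro f
      have h1 : mk f ∈ D ↔ φ.Realize (Sum.elim (fun a : (Set.univ : Set M) => (a : M))
          (fun _ : Fin 1 => mk f)) := by
        have h0 := Set.ext_iff.1 hφ (fun _ : Fin 1 => mk f)
        exact h0
      rw [h1]
      have h2 := h.los φ (Sum.elim g (fun _ => f)) (fun i => i.elim0)
      have e1 : (fun i => mk (Sum.elim g (fun _ : Fin 1 => f) i)) =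
          Sum.elim (fun a : (Set.univ : Set M) => (a : M)) (fun _ : Fin 1 => mk f) := by
        funext i
        rcases i with a | _
        · exact hg a
        · rfl
      rw [e1] at h2
      unfold Formula.Realize
      rw [show (default : Fin 0 → M) = fun i => mk (i.elim0 : ArF) from Subsingleton.elim _ _]
      rw [h2]
      refine eventually_congr (Eventually.of_forall fun x => ?_)
      apply iff_of_eq
      congr 1
      · funext i
        rcases i with a | _ <;> rfl
      · exact Subsingleton.elim _ _
  · rintro ⟨R, hR, hD⟩
    obtain ⟨φ, hφ⟩ := ArithP.formula₂ hR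
    let enc : ArF := ⟨Encodable.encode, ArithF.of_primrec Primrec.encode⟩
    have hm : mk enc ∈ (Set.univ : Set M) := Set.mem_univ _
    refine ⟨φ.relabel (![Sum.inl ⟨mk enc, hm⟩, Sum.inr 0] :
      Fin 2 → (Set.univ : Set M) ⊕ Fin 1), ?_⟩
    ext v
    obtain ⟨f, hf⟩ := h.surj (v 0)
    have h1 : D (v 0) ↔ ∀ᶠ x in (U : Filter (List Bool)), R x (f.1 x) := by
      rw [← hf]; exact hD f
    change D (v 0) ↔ Formula.Realize _ _
    rw [Formula.realize_relabel]
    have h2 := h.los φ (![enc, f] : Fin 2 → ArF) (fun i => i.elim0)
    have e1 : (Sum.elim (fun a : (Set.univ : Set M) => (a : M)) v ∘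
        (![Sum.inl ⟨mk enc, hm⟩, Sum.inr 0] : Fin 2 → (Set.univ : Set M) ⊕ Fin 1)) =
        fun i => mk ((![enc, f] : Fin 2 → ArF) i) := by
      funext i
      fin_cases i
      · rfl
      · exact hf.symm
    rw [h1]
    unfold Formula.Realize
    rw [e1, show (default : Fin 0 → M) = fun i => mk (i.elim0 : ArF) from Subsingleton.elim _ _, h2]
    refine eventually_congr (Eventually.of_forall fun x => ?_)
    have h3 := hφ (fun i => ((![enc, f] : Fin 2 → ArF) i).1 x)
    unfold Formula.Realize at h3
    have h5 : ∀ w w' : Fin 0 → ℕ,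
        (BoundedFormula.Realize φ (fun i => ((![enc, f] : Fin 2 → ArF) i).1 x) w ↔
          BoundedFormula.Realize φ (fun i => ((![enc, f] : Fin 2 → ArF) i).1 x) w') :=
      fun w w' => by rw [Subsingleton.elim w w']
    refine Iff.trans ?_ ((h5 _ _).trans h3).symm
    constructor
    · intro hx
      exact ⟨x, f.1 x, rfl, rfl, hx⟩
    · rintro ⟨a, b, ha, hb, hab⟩
      have ha' : a = x := Encodable.encode_injective ha
      have hb' : b = f.1 x := hb
      rwa [ha', hb'] at hab

/-- below a given element, a class is represented by an arithmetical family of strings -/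
theorem key_repr (h : IsUP U M mk)
    (hlt : ∀ f g : ArF, plt (mk f) (mk g) ↔ ∀ᶠ x in (U : Filter (List Bool)), f.1 x < g.1 x)
    (X : Set M) (hX : IsClass M X) (n : ArF) :
    ∃ g : List Bool → List Bool, ArithF g ∧ (∀ x, (g x).length = n.1 x) ∧
      ∀ f : ArF, (∀ᶠ x in (U : Filter (List Bool)), f.1 x < (g x).length) →
        (mk f ∈ X ↔ ∀ᶠ x in (U : Filter (List Bool)), (g x)[f.1 x]? = some true) := by
  classical
  obtain ⟨R, hR, hD⟩ := (h.def_iff _).1 (hX (mk n))
  refine ⟨fun x => (List.range (n.1 x)).map fun i => decide (R x i), ?_, fun x => by simp, ?_⟩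
  · have h1 : ArithF (fun p : List Bool × ℕ => decide (R p.1 p.2)) := ArithF.decide hR
    have h2 := ArithF.mapRange (f := fun x i => decide (R x i)) h1
    exact h2.comp (ArithF.pair ArithF.id n.2)
  · intro f hf
    have hf' : ∀ᶠ x in (U : Filter (List Bool)), f.1 x < n.1 x := by
      refine hf.mono fun x hx => ?_
      simpa using hx
    have h1 : mk f ∈ X ↔ ∀ᶠ x in (U : Filter (List Bool)), R x (f.1 x) := by
      rw [← hD f]
      constructor
      · intro hfX
        exact ⟨hfX, (hlt f n).2 hf'⟩
      · intro hfX
        exact hfX.1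
    rw [h1]
    refine eventually_congr (hf'.mono fun x hx => ?_)
    rw [List.getElem?_map, List.getElem?_range hx]
    simp

/-- module KEY, assuming the description of the order (module BAS) -/
theorem IsUP.exists_key_of (h : IsUP U M mk)
    (hlt : ∀ f g : ArF, plt (mk f) (mk g) ↔ ∀ᶠ x in (U : Filter (List Bool)), f.1 x < g.1 x)
    (hU : Good U) (X : Set M) (hX : IsClass M X)
    (hX' : ¬ Def M X) : ∃ g B, KeyData U mk X g B := by
  classical
  have hlen : ∀ m, ∀ᶠ x in (U : Filter (List Bool)), m ≤ x.length := by
    obtain ⟨Y, _, hY⟩ := hU.branch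
    intro m
    refine (hY m).mono fun x hx => ?_
    have := congrArg List.length hx
    simp at this
    omega
  have lenF : ArithF (List.length : List Bool → ℕ) := ArithF.of_primrec Primrec.list_length
  obtain ⟨g, hg, hgl, hgr⟩ := key_repr h hlt X hX ⟨List.length, lenF⟩
  rcases hU.real g hg (fun m => (hlen m).mono fun x hx => by rw [hgl]; exact hx) with
    ⟨Z, hZ, hgZ⟩ | ⟨B, hB, hB1, hB2⟩
  · -- the standard part of `X` is arithmetical
    have hZF : ArithF Z := by
      refine (ArithF.decide hZ).congr fun n => ?_
      simp
    have hne : ∃ d : ArF, ¬ (mk d ∈ X ↔ ∀ᶠ x in (U : Filter (List Bool)), Z (d.1 x) = true) := by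
      by_contra hc
      push Not at hc
      apply hX'
      rw [h.def_iff]
      refine ⟨fun _ n => Z n = true, ?_, fun f => ?_⟩
      · exact ArithP.comp hZ (ArithF.snd ArithF.id)
      · exact hc f
    obtain ⟨d, hd⟩ := hne
    obtain ⟨g', hg', hgl', hgr'⟩ := key_repr h hlt X hX
      ⟨fun x => x.length + (d.1 x + 1), (lenF.add (d.2.add (ArithF.const 1)))⟩
    simp only at hgl'
    refine ⟨g', fun u => u ≠ (List.range u.length).map Z, hg', ?_, hgr', ?_, ?_⟩
    · refine ArithP.not (ArithP.eq ArithF.id ?_)
      have h1 : ArithF (fun p : Unit × ℕ => Z p.2) := hZF.comp (ArithF.snd ArithF.id)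
      have h2 := ArithF.mapRange (f := fun (_ : Unit) i => Z i) h1
      exact h2.comp (ArithF.pair (ArithF.const ()) (ArithF.of_primrec Primrec.list_length))
    · have hst : ∀ i, ∀ᶠ x in (U : Filter (List Bool)), (g' x)[i]? = some (Z i) := by
        intro i
        have c1 := hgr ⟨fun _ => i, ArithF.const i⟩ ((hlen (i + 1)).mono fun x hx => by
          rw [hgl]; exact hx)
        have c2 := hgr' ⟨fun _ => i, ArithF.const i⟩ ((hlen (i + 1)).mono fun x hx => by
          rw [hgl']; simp only; omega)
        simp only at c1 c2
        have c3 : ∀ᶠ x in (U : Filter (List Bool)), (g x)[i]? = some (Z i) := by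
          refine (hgZ (i + 1)).mono fun x hx => ?_
          have h1 : ((g x).take (i + 1))[i]? = (g x)[i]? := by
            rw [List.getElem?_take]; simp
          rw [← h1, hx]
          simp
        cases hZi : Z i with
        | true =>
          rw [hZi] at c3
          exact c2.1 (c1.2 c3)
        | false =>
          rw [hZi] at c3
          have c4 : ¬ ∀ᶠ x in (U : Filter (List Bool)), (g x)[i]? = some true := by
            intro hc
            obtain ⟨x, hx1, hx2⟩ := (c3.and hc).exists
            rw [hx1] at hx2
            simp at hx2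
          have c5 : ¬ ∀ᶠ x in (U : Filter (List Bool)), (g' x)[i]? = some true := fun hc =>
            c4 (c1.1 (c2.2 hc))
          rw [← Ultrafilter.eventually_not] at c5
          filter_upwards [c5, hlen (i + 1)] with x hx1 hx2
          have h1 : i < (g' x).length := by rw [hgl']; omega
          rw [List.getElem?_eq_getElem h1] at hx1 ⊢
          cases hb : (g' x)[i] with
          | true => rw [hb] at hx1; exact absurd rfl hx1
          | false => rfl
      intro m
      have hall : ∀ᶠ x in (U : Filter (List Bool)), ∀ i ∈ Finset.range m, (g' x)[i]? = some (Z i) :=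
        (Finset.eventually_all _).2 fun i _ => hst i
      refine hall.mono fun x hx => ?_
      rw [not_not]
      apply List.ext_getElem?
      intro i
      rw [List.getElem?_map]
      by_cases hi : i < ((g' x).take m).length
      · have hi' : i < m := by
          rw [List.length_take] at hi; omega
        rw [List.getElem?_range hi, List.getElem?_take, if_pos hi', hx i (Finset.mem_range.2 hi')]
        rfl
      · rw [List.getElem?_eq_none (by omega), List.getElem?_eq_none (by
          rw [List.length_range]; omega)]
        rfl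
    · have e1 : ∀ᶠ x in (U : Filter (List Bool)), d.1 x < (g' x).length :=
        Eventually.of_forall fun x => by rw [hgl']; omega
      have e2 := hgr' d e1
      have e3 : ∀ᶠ x in (U : Filter (List Bool)), (g' x)[d.1 x]? ≠ some (Z (d.1 x)) := by
        rw [e2] at hd
        by_cases hc : ∀ᶠ x in (U : Filter (List Bool)), Z (d.1 x) = true
        · have hc' : ¬ ∀ᶠ x in (U : Filter (List Bool)), (g' x)[d.1 x]? = some true := fun h' =>
            hd ⟨fun _ => hc, fun _ => h'⟩
          rw [← Ultrafilter.eventually_not] at hc'
          filter_upwards [hc, hc'] with x hx1 hx2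
          rwa [hx1]
        · have hc' : ∀ᶠ x in (U : Filter (List Bool)), (g' x)[d.1 x]? = some true := by
            by_contra h'
            exact hd ⟨fun h'' => absurd h'' h', fun h'' => absurd h'' hc⟩
          rw [← Ultrafilter.eventually_not] at hc
          filter_upwards [hc, hc'] with x hx1 hx2
          rw [hx2]
          intro h'
          apply hx1
          exact (Option.some.inj h').symm
      refine (e1.and e3).mono fun x hx => ⟨(g' x).length, le_rfl, ?_⟩
      rw [List.take_length]
      intro h'
      apply hx.2
      have h4 : (g' x)[d.1 x]? = ((List.range (g' x).length).map Z)[d.1 x]? :=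
        congrArg (fun l : List Bool => l[d.1 x]?) h'
      rw [h4, List.getElem?_map, List.getElem?_range hx.1]
      rfl
  · exact ⟨g, B, hg, hB, hgr, hB1, hB2⟩

end Model

end Pool.Agent.Helper69.Enayat
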